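import Pool.Agent.Helper99.WP.GoalsW

set_option autoImplicit false

open Finset

namespace Pool.Agent.Helper9.WP

open Pool.Agent.Helper99.WP
open Pool.Agent.Helper99.ERW

/-- a union of cycles does not meet a path which ends at the root -/
lemma path_avoid {V : Type} [DecidableEq V] (c f : V → Option V) (C : Finset V) (hC : IsCyc c C) :
    ∀ l : List V, (∀ u ∈ l, c u = f u) → l.IsChain (fun u u' => f u = some u') →
      (∀ y, l.getLast? = some y → f y = none) → ∀ u ∈ l, u ∉ C := by
  intro l
  induction l with
  | nil => intro _ _ _ u hu; simp at hu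
  | cons a t ih =>
    cases t with
    | nil =>
      intro h1 _ h3 u hu huC
      have hua : u = a := by simpa using hu
      subst hua
      obtain ⟨z, _, hz⟩ := hC.2.1 u huC
      rw [h1 u hu, h3 u (by simp)] at hz
      exact absurd hz (by simp)
    | cons b t' =>
      intro h1 h2 h3 u hu huC
      have h2' := List.isChain_cons_cons.1 h2
      have ih' := ih (fun v hv => h1 v (List.mem_cons_of_mem _ hv)) h2'.2
        (fun y hy => h3 y (by simpa using hy))
      rcases List.mem_cons.1 hu with rfl | hu'
      · obtain ⟨z, hzC, hz⟩ := hC.2.1 u huC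
        rw [h1 u hu, h2'.1] at hz
        have hbz : b = z := by simpa using hz
        subst hbz
        exact ih' b (by simp) hzC
      · exact ih' u hu' huC

/-- popping does not change a path which ends at the root -/
lemma reach_path {V : Type} [DecidableEq V] (ξ : V → ℕ → Option V) (n m : V → ℕ) (l : List V)
    (h : Reach ξ n m) (h2 : l.IsChain (fun u u' => ξ u (n u) = some u'))
    (h3 : ∀ y, l.getLast? = some y → ξ y (n y) = none) : ∀ u ∈ l, m u = n u := by
  induction h with
  | refl => intro u _; rfl
  | tail _ hs ih =>
    obtain ⟨C, hC, rfl⟩ := hs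
    intro u hu
    have h4 := path_avoid _ (fun u => ξ u (n u)) C hC l
      (fun v hv => by simp only [top]; rw [ih v hv]) h2 h3 u hu
    simp only [pop, h4, if_false]
    exact ih u hu

lemma wk_alive {V : Type} [Fintype V] [DecidableEq V] (N : ℕ) (ξ : V → ℕ → Option V) (x : V)
    (hN : Trunc N ξ) : ∀ (t : ℕ) (y : V), (wk ξ x t).1 = some y →
      ∑ u, (wk ξ x t).2 u = t ∧ ∀ u, (wk ξ x t).2 u ≤ N := by
  intro t
  induction t with
  | zero => intro y _; simp [wk]
  | succ t ih =>
    intro y hy
    rcases hw : wk ξ x t with ⟨o, v⟩
    rw [hw] at ih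
    cases o with
    | none => simp only [wk, hw] at hy; exact absurd hy (by simp)
    | some z =>
      simp only [wk, hw] at hy ⊢
      obtain ⟨h1, h2⟩ := ih z rfl
      simp only at h1 h2
      have hlt : v z < N := by
        by_contra hcon
        rw [hN z (v z) (by omega)] at hy
        exact absurd hy (by simp)
      constructor
      · have h3 : ∀ u, Function.update v z (v z + 1) u = v u + if u = z then 1 else 0 := by
          intro u
          by_cases h : u = z
          · subst h; simp
          · simp [h]
        rw [sum_congr rfl (fun u _ => h3 u), sum_add_distrib, h1]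
        simp
      · intro u
        by_cases h : u = z
        · subst h; simp; omega
        · simpa [h] using h2 u

lemma wk_stay {V : Type} [DecidableEq V] (ξ : V → ℕ → Option V) (x : V) (t : ℕ)
    (h : (wk ξ x t).1 = none) : wk ξ x (t + 1) = wk ξ x t := by
  rcases hw : wk ξ x t with ⟨o, v⟩
  rw [hw] at h
  simp only at h
  subst h
  simp only [wk, hw]

theorem WLB (hCON : CON_stmt) (hTRM : TRM_stmt) (hWLA : WLA_stmt) : WLB_stmt := by
  intro V _ _ N ξ x hN
  refine ⟨fun t ht => ?_, fun t => ?_⟩
  · by_contra hcon
    obtain ⟨y, hy⟩ := Option.ne_none_iff_exists'.1 hcon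
    obtain ⟨h1, h2⟩ := wk_alive N ξ x hN t y hy
    have h3 : ∑ u, (wk ξ x t).2 u ≤ ∑ _u : V, N := sum_le_sum (fun u _ => h2 u)
    simp only [sum_const, card_univ, smul_eq_mul] at h3
    rw [h1, mul_comm] at h3
    omega
  · induction t with
    | zero => intro h; simp [wk] at h
    | succ t ih =>
      intro h
      by_cases h0 : (wk ξ x t).1 = none
      · rw [wk_stay ξ x t h0]; exact ih h0
      · obtain ⟨y, hy⟩ := Option.ne_none_iff_exists'.1 h0
        obtain ⟨l, n, hnd, hhd, hlast, hre, hch, hv⟩ := hWLA V ξ x y t hy
        rcases hw : wk ξ x t with ⟨o, v⟩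
        rw [hw] at hy hv
        simp only at hy hv
        subst hy
        simp only [wk, hw] at h ⊢
        have hvy : v y = n y := by rw [hv y]; simp
        rw [hvy] at h
        have hxl : x ∈ l := List.mem_of_mem_head? (by rw [hhd]; rfl)
        have hterm := (hTRM V N).2.2.1 ξ hN
        have hre2 : Reach ξ n (nst ξ) := (hCON V ξ (nst ξ) n).1 hterm hre
        have hx := reach_path ξ n (nst ξ) l hre2 hch (fun z hz => by
          rw [hlast] at hz
          have : y = z := by simpa using hz
          subst this; exact h) x hxl
        rw [hx]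
        by_cases hxy : x = y
        · subst hxy; simp [hvy]
        · rw [Function.update_of_ne hxy, hv x]
          simp [hxl, hxy]

end Pool.Agent.Helper9.WP
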